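import Pool.Agent.FQC.Simple
import Pool.Agent.FQ.Main
import Pool.Agent.FQ.Real
import Pool.Agent.FQ.Grade
import Pool.Agent.FQ.TubeI
import Pool.Agent.FQ.Comp
import Pool.Agent.SmallRank.RatMain

/-!
# The main theorem, condition of linear disjointness

Variant of `main` of `Pool/Agent/FQ/Main.lean` with `Disj K k` in place of `(finrank ℚ K).Coprime k`;
the proof is the same.
-/

set_option autoImplicit false
set_option linter.unusedSectionVars false

namespace Pool.Agent.FQC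

open Module
open Pool.Agent.FQ hiding idl_eq
open Pool.Agent.CoprimeSig (ratM)


variable {ι : Type} [Fintype ι] [DecidableEq ι]

private theorem ratM_mul' (A B : Matrix ι ι ℚ) : ratM (A * B) = ratM A * ratM B := by
  change (A * B).map (Rat.castHom ℂ) = A.map (Rat.castHom ℂ) * B.map (Rat.castHom ℂ)
  exact Matrix.map_mul

private theorem ratM_add' (A B : Matrix ι ι ℚ) : ratM (A + B) = ratM A + ratM B := by
  change (A + B).map (Rat.castHom ℂ) = A.map (Rat.castHom ℂ) + B.map (Rat.castHom ℂ)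
  exact Matrix.map_add _ (map_add _) _ _

private theorem ratM_one' : ratM (1 : Matrix ι ι ℚ) = 1 := by
  change (1 : Matrix ι ι ℚ).map (Rat.castHom ℂ) = 1
  exact Matrix.map_one _ (map_zero _) (map_one _)

private theorem ratM_zero' : ratM (0 : Matrix ι ι ℚ) = 0 := by
  change (0 : Matrix ι ι ℚ).map (Rat.castHom ℂ) = 0
  exact Matrix.map_zero _ (map_zero _)

private theorem ratM_neg' (A : Matrix ι ι ℚ) : ratM (-A) = -ratM A := by
  change (-A).map (Rat.castHom ℂ) = -A.map (Rat.castHom ℂ)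
  exact Matrix.map_neg _ (map_neg _) _

variable {F : Matrix ι ι ℚ} {h : Submodule ℚ (Matrix ι ι ℚ)}

/-- The main theorem. -/
theorem main (D : LieData F h) (K : Subfield ℂ) [FiniteDimensional ℚ K] {P : Polynomial ℚ}
    {r : ℝ} (hr : 0 < r) (hP : ∀ z : ℂ, (P.map (algebraMap ℚ ℂ)).IsRoot z → ‖z‖ = r)
    {C : Type} [Group C]
    (hH : ∀ γ : RingAut ℂ, (∀ x ∈ K, γ x = x) → ∀ S : Finset ℂ, (∀ x ∈ S, IsAlgebraic ℚ x) →
      ∃ τ : ℂ ≃+* ℂ, (∀ x ∈ S, τ x = γ x) ∧ HodgeTate h P C τ)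
    (hk : ∀ k m : ℕ, Odd k → 3 ≤ k → Fintype.card ι = m ^ k → Disj K k ∧
      (Subsingleton C ∨ (k.Prime ∧ ∀ N : Subgroup C, N.Normal → N.index ≠ k)))
    (hpow : ∀ m : ℕ, 5 ≤ m → Fintype.card ι ≠ 2 ^ m)
    (hn : (∀ k : ℕ, Odd k → 3 ≤ k → Fintype.card ι ≠ (2 * k).choose k) ∨
      (Odd (Nat.card C) ∧ ∀ x ∈ K, (starRingEnd ℂ) x = x)) (N : Matrix ι ι ℚ) :
    N ∈ h ↔ N.transpose * F + F * N = 0 := by
  refine ⟨D.skew N, fun hN => ?_⟩
  rcases isEmpty_or_nonempty ι with hι | hι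
  · have h1 : N = 0 := Matrix.ext fun i => (hι.false i).elim
    rw [h1]
    exact h.zero_mem
  rcases hn with hbin | ⟨hC, hreal⟩
  · obtain ⟨τ, -, Φ, e, ν, -, -, -, -, he, -⟩ := hH 1 (fun x _ => rfl) ∅ (by simp)
    exact (SmallRank.full_of_idl D he (idl_eq D K hH hk he) (Or.inr ⟨hpow, fun k => hbin k⟩)
      N).2 hN
  rw [← ratM_mem_cx]
  set φ : Matrix ι ι ℂ →ₐ[ℂ] End ℂ (ι → ℂ) :=
    (Matrix.toLinAlgEquiv' : Matrix ι ι ℂ ≃ₐ[ℂ] End ℂ (ι → ℂ)).toAlgHom with hφ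
  have hinj : Function.Injective φ := Matrix.toLinAlgEquiv'.injective
  have hφ' : ∀ A, φ A = Matrix.toLin' A := fun A => rfl
  set g : Submodule ℂ (End ℂ (ι → ℂ)) := (cx h).map φ.toLinearMap with hg
  have hmem : ∀ A : Matrix ι ι ℂ, φ A ∈ g ↔ A ∈ cx h := by
    intro A
    constructor
    · rintro ⟨B, hB, hBA⟩
      rw [← hinj hBA]
      exact hB
    · intro hA
      exact ⟨A, hA, rfl⟩
  rw [← hmem]
  have hCx := cxLie D
  have hlie : ∀ x ∈ g, ∀ y ∈ g, x * y - y * x ∈ g := by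
    rintro _ ⟨A, hA, rfl⟩ _ ⟨B, hB, rfl⟩
    refine ⟨A * B - B * A, hCx.lie A hA B hB, ?_⟩
    simp
  have htr : ∀ x ∈ g, LinearMap.trace ℂ (ι → ℂ) x = 0 := by
    rintro _ ⟨A, hA, rfl⟩
    have h1 := hCx.tr A hA
    rw [AlgHom.toLinearMap_apply, hφ', Matrix.trace_toLin'_eq, h1]
  have hirr : ∀ W : Submodule ℂ (ι → ℂ), (∀ x ∈ g, ∀ w ∈ W, x w ∈ W) → W = ⊥ ∨ W = ⊤ := by
    intro W hW
    refine hCx.irr W fun A hA w hw => ?_
    have h1 := hW (φ A) ((hmem A).2 hA) w hw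
    rwa [hφ', Matrix.toLin'_apply] at h1
  have hskew : ∀ x ∈ g, ∀ u v, frm F (x u) v + frm F u (x v) = 0 := by
    rintro _ ⟨A, hA, rfl⟩ u v
    rw [AlgHom.toLinearMap_apply, hφ', frm_toLin, skew_cx D hA, Matrix.zero_mulVec,
      dotProduct_zero]
  have hD : ∀ u v, frm F (φ (ratM N) u) v + frm F u (φ (ratM N) v) = 0 := by
    intro u v
    have h1 : (ratM N).transpose * ratM F + ratM F * ratM N = 0 := by
      have h2 : (ratM N).transpose = ratM N.transpose := rfl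
      rw [h2, ← ratM_mul', ← ratM_mul', ← ratM_add', hN, ratM_zero']
    rw [hφ', frm_toLin, h1, Matrix.zero_mulVec, dotProduct_zero]
  -- the consequences for a cocharacter
  have hco : ∀ {e : Matrix ι ι ℂ}, IsCochar h e → φ e * φ e = φ e ∧
      (∀ u v, frm F (φ e u) v + frm F u (φ e v) = frm F u v) ∧ (2 : ℂ) • φ e - 1 ∈ g ∧
      ∀ W : Submodule ℂ (ι → ℂ), (∀ x ∈ g, φ e * x = x → x * φ e = 0 → ∀ w ∈ W, x w ∈ W) →
        (∀ x ∈ g, φ e * x = 0 → x * φ e = x → ∀ w ∈ W, x w ∈ W) → W = ⊥ ∨ W = ⊤ := by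
    intro e he
    have h1 : φ e * φ e = φ e := by rw [← map_mul, he.idem]
    have h2 : (2 : ℂ) • φ e - 1 ∈ g := by
      have h3 : (2 : ℂ) • φ e - 1 = φ ((2 : ℂ) • e - 1) := by
        rw [map_sub, map_smul, map_one]
      rw [h3, hmem]
      exact he.mem
    refine ⟨h1, ?_, h2, ?_⟩
    · intro u v
      rw [hφ', frm_toLin, he.mult D, frm_apply]
    · intro W hW1 hW2
      refine irr_graded hlie htr hirr h1 h2 ?_ W hW1 hW2
      intro s hs1 hs2 hs3
      refine le_antisymm hs1 ?_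
      rintro _ ⟨A, hA, rfl⟩
      have h4 : idl (cx h) e ≤ s.comap φ.toLinearMap := by
        refine idl_le ?_ ?_
        · rw [Submodule.mem_comap, AlgHom.toLinearMap_apply, map_sub, map_smul, map_one]
          exact hs3
        · intro x hx y hy
          rw [Submodule.mem_comap, AlgHom.toLinearMap_apply] at hy ⊢
          rw [map_sub, map_mul, map_mul]
          exact hs2 _ ((hmem x).2 hx) _ hy
      rw [idl_eq D K hH hk he] at h4
      exact h4 hA
  set Q := P.map (algebraMap ℚ ℂ) with hQ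
  obtain ⟨τ, hτ, Φ, e, ν, hΦ, hdiag, hfix, het, he, hν, c, u, hu, hue⟩ :=
    hH Complex.conjAe.toRingEquiv (fun x hx => hreal x hx) Q.roots.toFinset (by
      intro x hx
      rw [Multiset.mem_toFinset, Polynomial.mem_roots', hQ, Polynomial.IsRoot.def,
        Polynomial.eval_map_algebraMap] at hx
      exact ⟨P, fun h0 => hx.1 (by rw [h0, Polynomial.map_zero]), hx.2⟩)
  obtain ⟨h1, h2, h3, h4⟩ := hco he
  have hQ0 : Q ≠ 0 := by
    intro h0
    exact (Matrix.charpoly_monic Φ).ne_zero (hΦ.trans h0)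
  have h5 : e.map τ = 1 - e := by
    refine map_eq_one_sub D.nondeg hr hP (fun z hz => ?_) hΦ hdiag hfix het he.idem (he.mult D)
    rw [hτ z (by rw [Multiset.mem_toFinset, Polynomial.mem_roots hQ0]; exact hz)]
    rfl
  obtain ⟨u', hu', hu'e⟩ := exists_exp_of_odd hν hC hu (e := e) (by rw [← hue, h5])
  have h6 : ((Units.map (φ : Matrix ι ι ℂ →* End ℂ (ι → ℂ)) u' : (End ℂ (ι → ℂ))ˣ) :
      End ℂ (ι → ℂ)) * φ e *
      (((Units.map (φ : Matrix ι ι ℂ →* End ℂ (ι → ℂ)) u')⁻¹ : (End ℂ (ι → ℂ))ˣ) :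
        End ℂ (ι → ℂ)) = 1 - φ e := by
    rw [← map_inv, Units.coe_map, Units.coe_map]
    change φ _ * φ e * φ _ = _
    rw [← map_mul, ← map_mul, hu'e, map_sub, map_one]
  obtain ⟨x, hx, hx1, hx2, hx3⟩ := exists_tube hlie h1 h3 (expG_map φ hu') h6
  exact tube_sp (frm_alt D.alt) (frm_nondeg D.nondeg) hlie hskew h1 h2 h3 hx hx1 hx2 hx3 h4
    (by rw [finrank_fintype_fun_eq_card]; exact hpow) _ hD

end Pool.Agent.FQC
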