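import Pool.Agent.FQC.Main
import Pool.Agent.FQA.SpN

/-!
# The main theorem: only the powers of two whose exponent is 1 or 2 modulo 4 are excluded

Variant of `main` of `Pool/Agent/FQC/Main.lean`. The spin representation of an orthogonal algebra in
`2 m + 1` variables is symplectic only if `m` is `1` or `2` modulo `4`, a half spin representation in
`2 m + 2` variables only if `m` is `1` modulo `4` (`FQA/SpN.lean`).
-/

set_option autoImplicit false
set_option linter.unusedSectionVars false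

namespace Pool.Agent.FQC

open Module
open Pool.Agent.FQ hiding idl_eq
open Pool.Agent.SmallRank
open Pool.Agent.CoprimeSig (ratM)

variable {ι : Type} [Fintype ι] [DecidableEq ι]

private theorem ratM_mul4 (A B : Matrix ι ι ℚ) : ratM (A * B) = ratM A * ratM B := by
  change (A * B).map (Rat.castHom ℂ) = A.map (Rat.castHom ℂ) * B.map (Rat.castHom ℂ)
  exact Matrix.map_mul

private theorem ratM_add4 (A B : Matrix ι ι ℚ) : ratM (A + B) = ratM A + ratM B := by
  change (A + B).map (Rat.castHom ℂ) = A.map (Rat.castHom ℂ) + B.map (Rat.castHom ℂ)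
  exact Matrix.map_add _ (map_add _) _ _

private theorem ratM_zero4 : ratM (0 : Matrix ι ι ℚ) = 0 := by
  change (0 : Matrix ι ι ℚ).map (Rat.castHom ℂ) = 0
  exact Matrix.map_zero _ (map_zero _)

variable {F : Matrix ι ι ℚ} {h : Submodule ℚ (Matrix ι ι ℚ)}

/-- The simple case: the dimension is not a power of two whose exponent is at least five and `1` or
`2` modulo `4`, and it is not a middle binomial coefficient, or there is an invertible element of
degree one. -/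
theorem full_of_idl4 (D : LieData F h) {e : Matrix ι ι ℂ} (he : IsCochar h e)
    (hidl : idl (cx h) e = cx h)
    (hpow : ∀ m, 5 ≤ m → m % 4 = 1 ∨ m % 4 = 2 → Fintype.card ι ≠ 2 ^ m)
    (hn : (∃ x ∈ cx h, e * x = x ∧ x * e = 0 ∧
        ∀ v : ι → ℂ, e.mulVec v = 0 → x.mulVec v = 0 → v = 0) ∨
      ∀ k, Odd k → 3 ≤ k → Fintype.card ι ≠ (2 * k).choose k)
    (A : Matrix ι ι ℚ) : A ∈ h ↔ A.transpose * F + F * A = 0 := by
  refine ⟨D.skew A, fun hA => ?_⟩
  rcases isEmpty_or_nonempty ι with hι | hι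
  · have h1 : A = 0 := Matrix.ext fun i => (hι.false i).elim
    rw [h1]
    exact h.zero_mem
  rw [← ratM_mem_cx]
  set φ : Matrix ι ι ℂ →ₐ[ℂ] End ℂ (ι → ℂ) :=
    (Matrix.toLinAlgEquiv' : Matrix ι ι ℂ ≃ₐ[ℂ] End ℂ (ι → ℂ)).toAlgHom with hφ
  have hinj : Function.Injective φ := Matrix.toLinAlgEquiv'.injective
  have hφ' : ∀ A, φ A = Matrix.toLin' A := fun A => rfl
  set g : Submodule ℂ (End ℂ (ι → ℂ)) := (cx h).map φ.toLinearMap with hg
  have hmem : ∀ A : Matrix ι ι ℂ, φ A ∈ g ↔ A ∈ cx h := by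
    intro A
    constructor
    · rintro ⟨B, hB, hBA⟩
      rw [← hinj hBA]
      exact hB
    · intro hA
      exact ⟨A, hA, rfl⟩
  rw [← hmem]
  have hCx := cxLie D
  have hlie : ∀ x ∈ g, ∀ y ∈ g, x * y - y * x ∈ g := by
    rintro _ ⟨A, hA, rfl⟩ _ ⟨B, hB, rfl⟩
    refine ⟨A * B - B * A, hCx.lie A hA B hB, ?_⟩
    simp
  have htr : ∀ x ∈ g, LinearMap.trace ℂ (ι → ℂ) x = 0 := by
    rintro _ ⟨A, hA, rfl⟩
    have h1 := hCx.tr A hA
    rw [AlgHom.toLinearMap_apply, hφ', Matrix.trace_toLin'_eq, h1]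
  have hirr : ∀ W : Submodule ℂ (ι → ℂ), (∀ x ∈ g, ∀ w ∈ W, x w ∈ W) → W = ⊥ ∨ W = ⊤ := by
    intro W hW
    refine hCx.irr W fun A hA w hw => ?_
    have h1 := hW (φ A) ((hmem A).2 hA) w hw
    rwa [hφ', Matrix.toLin'_apply] at h1
  have hskew : ∀ x ∈ g, ∀ u v, form F (x u) v + form F u (x v) = 0 := by
    rintro _ ⟨A, hA, rfl⟩ u v
    rw [AlgHom.toLinearMap_apply, hφ', form_toLin, skew_cx D hA, Matrix.zero_mulVec,
      dotProduct_zero]
  have hD : ∀ u v, form F (φ (ratM A) u) v + form F u (φ (ratM A) v) = 0 := by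
    intro u v
    have h1 : (ratM A).transpose * ratM F + ratM F * ratM A = 0 := by
      have h2 : (ratM A).transpose = ratM A.transpose := rfl
      rw [h2, ← ratM_mul4, ← ratM_mul4, ← ratM_add4, hA, ratM_zero4]
    rw [hφ', form_toLin, h1, Matrix.zero_mulVec, dotProduct_zero]
  have hee : φ e * φ e = φ e := by rw [← map_mul, he.idem]
  have h2e : (2 : ℂ) • φ e - 1 ∈ g := by
    have h3 : (2 : ℂ) • φ e - 1 = φ ((2 : ℂ) • e - 1) := by
      rw [map_sub, map_smul, map_one]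
    rw [h3, hmem]
    exact he.mem
  have hmult : ∀ u v, form F (φ e u) v + form F u (φ e v) = form F u v := by
    intro u v
    rw [hφ', form_toLin, he.mult D, form_apply]
  have hsimple : ∀ s : Submodule ℂ (End ℂ (ι → ℂ)), s ≤ g →
      (∀ x ∈ g, ∀ y ∈ s, x * y - y * x ∈ s) → (2 : ℂ) • φ e - 1 ∈ s → s = g := by
    intro s hs1 hs2 hs3
    refine le_antisymm hs1 ?_
    rintro _ ⟨B, hB, rfl⟩
    have h4 : idl (cx h) e ≤ s.comap φ.toLinearMap := by
      refine idl_le ?_ ?_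
      · rw [Submodule.mem_comap, AlgHom.toLinearMap_apply, map_sub, map_smul, map_one]
        exact hs3
      · intro x hx y hy
        rw [Submodule.mem_comap, AlgHom.toLinearMap_apply] at hy ⊢
        rw [map_sub, map_mul, map_mul]
        exact hs2 _ ((hmem x).2 hx) _ hy
    rw [hidl] at h4
    exact h4 hB
  obtain ⟨G, hrke, htr0⟩ := gr_of_idl hlie htr hirr hee h2e hsimple
  have hgsp : ∀ x ∈ g ⊔ Submodule.span ℂ {1}, ∃ κ : ℂ, ∀ u v,
      form F (x u) v + form F u (x v) = κ * form F u v := by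
    intro x hx
    obtain ⟨a, ha, b, hb, rfl⟩ := Submodule.mem_sup.1 hx
    obtain ⟨c, rfl⟩ := Submodule.mem_span_singleton.1 hb
    refine ⟨2 * c, fun u v => ?_⟩
    have h1 := hskew a ha u v
    simp only [LinearMap.add_apply, LinearMap.smul_apply, Module.End.one_apply, map_add,
      map_smul, smul_eq_mul]
    linear_combination h1
  have h5 : φ (ratM A) ∈ g ⊔ Submodule.span ℂ {1} := by
    refine Pool.Agent.FQA.sp_of_gr G (form_alt D.alt) (form_nondeg D.nondeg) hgsp hmult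
      (fun m hm h4 => by rw [finrank_fintype_fun_eq_card]; exact hpow m hm h4) ?_ hD
    rcases hn with ⟨x, hx, hx1, hx2, hx3⟩ | hbin
    · refine Or.inl ⟨φ x, ⟨Submodule.mem_sup_left ((hmem x).2 hx), ?_, ?_⟩, fun v hv hv' => ?_⟩
      · rw [← map_mul, hx1]
      · rw [← map_mul, hx2, map_zero]
      · rw [hφ', Matrix.toLin'_apply] at hv hv'
        exact hx3 v hv hv'
    · exact Or.inr fun k hk hk3 => by rw [finrank_fintype_fun_eq_card]; exact hbin k hk hk3
  refine htr0 _ h5 ?_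
  -- the trace of a skew operator is zero
  obtain ⟨a, ha, b, hb, hab⟩ := Submodule.mem_sup.1 h5
  obtain ⟨c, rfl⟩ := Submodule.mem_span_singleton.1 hb
  have hc : c = 0 := by
    have : Nontrivial (ι → ℂ) := inferInstance
    obtain ⟨u, hu⟩ := exists_ne (0 : ι → ℂ)
    have h6 : ∃ v, form F u v ≠ 0 := by
      by_contra hn
      push Not at hn
      exact hu (form_nondeg D.nondeg u hn)
    obtain ⟨v, hv⟩ := h6
    have h7 := hD u v
    have h8 := hskew a ha u v
    rw [← hab] at h7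
    simp only [LinearMap.add_apply, LinearMap.smul_apply, Module.End.one_apply, map_add,
      map_smul, smul_eq_mul] at h7
    have h9 : 2 * c * form F u v = 0 := by linear_combination h7 - h8
    rcases mul_eq_zero.1 h9 with h10 | h10
    · rcases mul_eq_zero.1 h10 with h11 | h11
      · exact absurd h11 two_ne_zero
      · exact h11
    · exact absurd h10 hv
  rw [← hab, hc, zero_smul, add_zero]
  exact htr a ha

/-- The main theorem, only powers of two with exponents `1` or `2` modulo `4` are excluded. -/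
theorem main4 (D : LieData F h) (K : Subfield ℂ) [FiniteDimensional ℚ K] {P : Polynomial ℚ}
    {r : ℝ} (hr : 0 < r) (hP : ∀ z : ℂ, (P.map (algebraMap ℚ ℂ)).IsRoot z → ‖z‖ = r)
    {C : Type} [Group C]
    (hH : ∀ γ : RingAut ℂ, (∀ x ∈ K, γ x = x) → ∀ S : Finset ℂ, (∀ x ∈ S, IsAlgebraic ℚ x) →
      ∃ τ : ℂ ≃+* ℂ, (∀ x ∈ S, τ x = γ x) ∧ HodgeTate h P C τ)
    (hk : ∀ k m : ℕ, Odd k → 3 ≤ k → Fintype.card ι = m ^ k → Disj K k ∧
      (Subsingleton C ∨ (k.Prime ∧ ∀ N : Subgroup C, N.Normal → N.index ≠ k)))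
    (hpow : ∀ m : ℕ, 5 ≤ m → m % 4 = 1 ∨ m % 4 = 2 → Fintype.card ι ≠ 2 ^ m)
    (hn : (∀ k : ℕ, Odd k → 3 ≤ k → Fintype.card ι ≠ (2 * k).choose k) ∨
      (Odd (Nat.card C) ∧ ∀ x ∈ K, (starRingEnd ℂ) x = x)) (N : Matrix ι ι ℚ) :
    N ∈ h ↔ N.transpose * F + F * N = 0 := by
  refine ⟨D.skew N, fun hN => ?_⟩
  rcases isEmpty_or_nonempty ι with hι | hι
  · have h1 : N = 0 := Matrix.ext fun i => (hι.false i).elim
    rw [h1]
    exact h.zero_mem
  rcases hn with hbin | ⟨hC, hreal⟩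
  · obtain ⟨τ, -, Φ, e, ν, -, -, -, -, he, -⟩ := hH 1 (fun x _ => rfl) ∅ (by simp)
    exact (full_of_idl4 D he (idl_eq D K hH hk he) hpow (Or.inr fun k => hbin k) N).2 hN
  set φ : Matrix ι ι ℂ →ₐ[ℂ] End ℂ (ι → ℂ) :=
    (Matrix.toLinAlgEquiv' : Matrix ι ι ℂ ≃ₐ[ℂ] End ℂ (ι → ℂ)).toAlgHom with hφ
  have hinj : Function.Injective φ := Matrix.toLinAlgEquiv'.injective
  have hφ' : ∀ A, φ A = Matrix.toLin' A := fun A => rfl
  set g : Submodule ℂ (End ℂ (ι → ℂ)) := (cx h).map φ.toLinearMap with hg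
  have hmem : ∀ A : Matrix ι ι ℂ, φ A ∈ g ↔ A ∈ cx h := by
    intro A
    constructor
    · rintro ⟨B, hB, hBA⟩
      rw [← hinj hBA]
      exact hB
    · intro hA
      exact ⟨A, hA, rfl⟩
  have hCx := cxLie D
  have hlie : ∀ x ∈ g, ∀ y ∈ g, x * y - y * x ∈ g := by
    rintro _ ⟨A, hA, rfl⟩ _ ⟨B, hB, rfl⟩
    refine ⟨A * B - B * A, hCx.lie A hA B hB, ?_⟩
    simp
  set Q := P.map (algebraMap ℚ ℂ) with hQ
  obtain ⟨τ, hτ, Φ, e, ν, hΦ, hdiag, hfix, het, he, hν, c, u, hu, hue⟩ :=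
    hH Complex.conjAe.toRingEquiv (fun x hx => hreal x hx) Q.roots.toFinset (by
      intro x hx
      rw [Multiset.mem_toFinset, Polynomial.mem_roots', hQ, Polynomial.IsRoot.def,
        Polynomial.eval_map_algebraMap] at hx
      exact ⟨P, fun h0 => hx.1 (by rw [h0, Polynomial.map_zero]), hx.2⟩)
  have h1 : φ e * φ e = φ e := by rw [← map_mul, he.idem]
  have h3 : (2 : ℂ) • φ e - 1 ∈ g := by
    have h3 : (2 : ℂ) • φ e - 1 = φ ((2 : ℂ) • e - 1) := by
      rw [map_sub, map_smul, map_one]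
    rw [h3, hmem]
    exact he.mem
  have hQ0 : Q ≠ 0 := by
    intro h0
    exact (Matrix.charpoly_monic Φ).ne_zero (hΦ.trans h0)
  have h5 : e.map τ = 1 - e := by
    refine map_eq_one_sub D.nondeg hr hP (fun z hz => ?_) hΦ hdiag hfix het he.idem (he.mult D)
    rw [hτ z (by rw [Multiset.mem_toFinset, Polynomial.mem_roots hQ0]; exact hz)]
    rfl
  obtain ⟨u', hu', hu'e⟩ := exists_exp_of_odd hν hC hu (e := e) (by rw [← hue, h5])
  have h6 : ((Units.map (φ : Matrix ι ι ℂ →* End ℂ (ι → ℂ)) u' : (End ℂ (ι → ℂ))ˣ) :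
      End ℂ (ι → ℂ)) * φ e *
      (((Units.map (φ : Matrix ι ι ℂ →* End ℂ (ι → ℂ)) u')⁻¹ : (End ℂ (ι → ℂ))ˣ) :
        End ℂ (ι → ℂ)) = 1 - φ e := by
    rw [← map_inv, Units.coe_map, Units.coe_map]
    change φ _ * φ e * φ _ = _
    rw [← map_mul, ← map_mul, hu'e, map_sub, map_one]
  obtain ⟨x, ⟨B, hB, rfl⟩, hx1, hx2, hx3⟩ := exists_tube hlie h1 h3 (expG_map φ hu') h6
  refine (full_of_idl4 D he (idl_eq D K hH hk he) hpow (Or.inl ⟨B, hB, hinj ?_, hinj ?_,
    fun v hv hv' => hx3 v ?_ ?_⟩) N).2 hN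
  · rw [map_mul]
    exact hx1
  · rw [map_mul, map_zero]
    exact hx2
  · rw [hφ', Matrix.toLin'_apply]
    exact hv
  · change φ B v = 0
    rw [hφ', Matrix.toLin'_apply]
    exact hv'

end Pool.Agent.FQC
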