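import Pool.Agent.FQC.Sub

/-!
# Transitivity of `Aut(ℂ / K)` on a finite set on which `Aut(ℂ)` is transitive

Let `Aut(ℂ)` act transitively on a finite set `X` through the Galois group of a number field. Then
`Aut(ℂ / K)` is transitive on `X` if `K` is linearly disjoint from every field of degree `|X|`, or if
`|X| = 3` and `K` has no cubic subfield.
-/

set_option autoImplicit false

namespace Pool.Agent.FQC

open Module
open Pool.Agent.FQ (fixG mem_fixG index_fixG)

/-- A number field generated by finitely many algebraic numbers. -/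
private theorem exists_field (S : Finset ℂ) (hS : ∀ x ∈ S, IsAlgebraic ℚ x) :
    ∃ K₁ : Subfield ℂ, FiniteDimensional ℚ K₁ ∧ ∀ x ∈ S, x ∈ K₁ := by
  have h1 : FiniteDimensional ℚ (IntermediateField.adjoin ℚ (S : Set ℂ)) := by
    refine IntermediateField.finiteDimensional_adjoin fun x hx => ?_
    exact (hS x hx).isIntegral
  exact ⟨(IntermediateField.adjoin ℚ (S : Set ℂ)).toSubfield, h1, fun x hx =>
    IntermediateField.subset_adjoin ℚ _ hx⟩

variable {X : Type} [MulAction (RingAut ℂ) X]

/-- The fixed field of the stabiliser of a point. -/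
private theorem exists_fixed [Finite X] [MulAction.IsPretransitive (RingAut ℂ) X]
    (hc : ∃ S : Finset ℂ, (∀ x ∈ S, IsAlgebraic ℚ x) ∧
      ∀ τ : RingAut ℂ, (∀ x ∈ S, τ x = x) → ∀ I : X, τ • I = I) (I : X) :
    ∃ F : Subfield ℂ, finrank ℚ F = Nat.card X ∧ MulAction.stabilizer (RingAut ℂ) I ≤ fixG F := by
  obtain ⟨S, hS, hfix⟩ := hc
  obtain ⟨K₁, hK₁, hSK⟩ := exists_field S hS
  obtain ⟨F, -, hF, hle⟩ := exists_subfield K₁ (MulAction.stabilizer (RingAut ℂ) I) fun τ hτ =>
    hfix τ (fun x hx => (mem_fixG.1 hτ) x (hSK x hx)) I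
  exact ⟨F, hF.trans (MulAction.index_stabilizer_of_transitive (RingAut ℂ) I), hle⟩

/-- `K` linearly disjoint from the fields of degree `|X|`. -/
theorem trans_of_linDisj [Finite X] [MulAction.IsPretransitive (RingAut ℂ) X]
    (hc : ∃ S : Finset ℂ, (∀ x ∈ S, IsAlgebraic ℚ x) ∧
      ∀ τ : RingAut ℂ, (∀ x ∈ S, τ x = x) → ∀ I : X, τ • I = I)
    (K : Subfield ℂ) [FiniteDimensional ℚ K]
    (hK : ∀ F : Subfield ℂ, finrank ℚ F = Nat.card X →
      finrank ℚ (K ⊔ F : Subfield ℂ) = finrank ℚ K * Nat.card X) :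
    MulAction.IsPretransitive (fixG K) X := by
  have key : ∀ I J : X, J ∈ MulAction.orbit (fixG K) I := by
    intro I J
    have hne : Nonempty X := ⟨I⟩
    obtain ⟨F, hF, hle⟩ := exists_fixed hc I
    have h1 := hK F hF
    have hpos : 0 < finrank ℚ (K ⊔ F : Subfield ℂ) := by
      rw [h1]
      exact Nat.mul_pos finrank_pos Nat.card_pos
    have hfin : FiniteDimensional ℚ (K ⊔ F : Subfield ℂ) := FiniteDimensional.of_finrank_pos hpos
    have h2 : fixG K ⊓ MulAction.stabilizer (RingAut ℂ) I ≤ fixG (K ⊔ F) := by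
      intro τ hτ
      have h3 : K ⊔ F ≤ RingHom.eqLocusField (τ : ℂ →+* ℂ) (RingHom.id ℂ) :=
        sup_le (fun x hx => mem_fixG.1 hτ.1 x hx) fun x hx => mem_fixG.1 (hle hτ.2) x hx
      rw [mem_fixG]
      exact fun x hx => h3 hx
    have h3 := Subgroup.index_dvd_of_le h2
    rw [index_fixG, h1, ← Subgroup.relIndex_mul_index
      (inf_le_left : fixG K ⊓ MulAction.stabilizer (RingAut ℂ) I ≤ fixG K), index_fixG,
      Subgroup.inf_relIndex_left, mul_comm (finrank ℚ K)] at h3
    have h4 : Nat.card X ∣ (MulAction.stabilizer (RingAut ℂ) I).relIndex (fixG K) :=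
      Nat.dvd_of_mul_dvd_mul_right finrank_pos h3
    have h5 : (MulAction.stabilizer (RingAut ℂ) I).relIndex (fixG K) =
        (MulAction.orbit (fixG K) I).ncard := by
      rw [← MulAction.index_stabilizer]
      rfl
    rw [h5] at h4
    have h6 : 0 < (MulAction.orbit (fixG K) I).ncard :=
      (Set.ncard_pos (Set.toFinite _)).2 ⟨I, MulAction.mem_orbit_self I⟩
    have h7 := Nat.le_of_dvd h6 h4
    have h8 : MulAction.orbit (fixG K) I = Set.univ := by
      refine Set.eq_of_subset_of_ncard_le (Set.subset_univ _) ?_ (Set.toFinite _)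
      rw [Set.ncard_univ]
      exact h7
    rw [h8]
    exact Set.mem_univ J
  exact ⟨fun I J => key I J⟩

/-- `|X| = 3` and `K` has no cubic subfield. -/
theorem trans_of_cubic [Finite X] [MulAction.IsPretransitive (RingAut ℂ) X]
    (K : Subfield ℂ) [FiniteDimensional ℚ K] (h3 : Nat.card X = 3)
    (hK : ∀ F : Subfield ℂ, F ≤ K → finrank ℚ F ≠ 3) :
    MulAction.IsPretransitive (fixG K) X := by
  have h1 : ∀ I : X, 2 ≤ (MulAction.orbit (fixG K) I).ncard := by
    intro I
    by_contra hlt
    have h6 : 0 < (MulAction.orbit (fixG K) I).ncard :=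
      (Set.ncard_pos (Set.toFinite _)).2 ⟨I, MulAction.mem_orbit_self I⟩
    have h7 : (MulAction.orbit (fixG K) I).ncard = 1 := by omega
    obtain ⟨J, hJ⟩ := Set.ncard_eq_one.1 h7
    have hIJ : I = J := by
      have := MulAction.mem_orbit_self (M := fixG K) I
      rwa [hJ, Set.mem_singleton_iff] at this
    subst hIJ
    have h8 : fixG K ≤ MulAction.stabilizer (RingAut ℂ) I := by
      intro τ hτ
      have h9 : (⟨τ, hτ⟩ : fixG K) • I ∈ MulAction.orbit (fixG K) I := MulAction.mem_orbit _ _
      rw [hJ, Set.mem_singleton_iff] at h9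
      exact h9
    obtain ⟨F, hFK, hF, -⟩ := exists_subfield K _ h8
    refine hK F hFK ?_
    rw [hF, MulAction.index_stabilizer_of_transitive, h3]
  have key : ∀ I J : X, J ∈ MulAction.orbit (fixG K) I := by
    intro I J
    by_contra hJ
    have h2 : Disjoint (MulAction.orbit (fixG K) I) (MulAction.orbit (fixG K) J) := by
      rw [Set.disjoint_left]
      intro x hx hx'
      apply hJ
      rw [← MulAction.orbit_eq_iff.2 hx, MulAction.orbit_eq_iff.2 hx']
      exact MulAction.mem_orbit_self J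
    have h4 := Set.ncard_union_eq h2 (Set.toFinite _) (Set.toFinite _)
    have h5 : (MulAction.orbit (fixG K) I ∪ MulAction.orbit (fixG K) J).ncard ≤ 3 := by
      rw [← h3, ← Set.ncard_univ]
      exact Set.ncard_le_ncard (Set.subset_univ _) (Set.toFinite _)
    have h6 := h1 I
    have h7 := h1 J
    omega
  exact ⟨fun I J => key I J⟩

end Pool.Agent.FQC
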