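import Pool.Agent.FQ.Index

/-!
# Subgroups of `Aut(ℂ)` containing `Aut(ℂ / K)` and subfields of `K`

A subgroup `H` of `Aut(ℂ)` which contains the group of the automorphisms fixing a number field `K` is
the group of the automorphisms fixing a subfield `F` of `K`, and `[F : ℚ]` is its index.
-/

set_option autoImplicit false

namespace Pool.Agent.FQC

open Pool.Agent.FQ (fixG mem_fixG)

/-- Automorphisms of `ℂ` extending an automorphism of a subfield. -/
private theorem exists_aut {K : Type*} [Field K] [Algebra K ℂ] (τ : K ≃+* K) {T : Type*}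
    {x : T → ℂ} (hx : IsTranscendenceBasis K x) :
    ∃ σ : ℂ ≃+* ℂ, ∀ a : K, σ (algebraMap K ℂ a) = algebraMap K ℂ (τ a) := by
  let h0 : IsAlgClosure (Algebra.adjoin K (Set.range x)) ℂ :=
    IsAlgClosed.isAlgClosure_of_transcendence_basis x hx
  let e : Algebra.adjoin K (Set.range x) ≃+* Algebra.adjoin K (Set.range x) :=
    hx.1.aevalEquiv.symm.toRingEquiv.trans
      ((MvPolynomial.mapEquiv T τ).trans hx.1.aevalEquiv.toRingEquiv)
  have he : ∀ p : MvPolynomial T K, e (hx.1.aevalEquiv p) =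
      hx.1.aevalEquiv (MvPolynomial.map (τ : K →+* K) p) := by
    intro p
    change hx.1.aevalEquiv (MvPolynomial.map (τ : K →+* K)
      (hx.1.aevalEquiv.symm (hx.1.aevalEquiv p))) = _
    rw [AlgEquiv.symm_apply_apply]
  have hσ : ∀ p : MvPolynomial T K, IsAlgClosure.equivOfEquiv ℂ ℂ e (MvPolynomial.aeval x p) =
      MvPolynomial.aeval x (MvPolynomial.map (τ : K →+* K) p) := by
    intro p
    rw [← hx.1.algebraMap_aevalEquiv, IsAlgClosure.equivOfEquiv_algebraMap, he,
      hx.1.algebraMap_aevalEquiv]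
  refine ⟨IsAlgClosure.equivOfEquiv ℂ ℂ e, ?_⟩
  intro a
  have h1 := hσ (MvPolynomial.C a)
  rw [MvPolynomial.map_C, MvPolynomial.aeval_C, MvPolynomial.aeval_C] at h1
  exact h1

/-- The algebraic numbers. -/
noncomputable abbrev Qbar : IntermediateField ℚ ℂ := algebraicClosure ℚ ℂ

instance : IsAlgClosure ℚ Qbar := algebraicClosure.isAlgClosure ℚ ℂ

instance : Normal ℚ Qbar := IsAlgClosure.normal ℚ Qbar

instance : IsGalois ℚ Qbar := ⟨⟩

/-- Automorphisms of `ℂ` as automorphisms over `ℚ`. -/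
noncomputable def toGal : RingAut ℂ →* (ℂ ≃ₐ[ℚ] ℂ) where
  toFun τ := AlgEquiv.ofRingEquiv (f := τ) fun q => by
    rw [eq_ratCast]
    exact map_ratCast τ q
  map_one' := rfl
  map_mul' _ _ := rfl

/-- The restriction of an automorphism of `ℂ` to the algebraic numbers. -/
noncomputable def res : RingAut ℂ →* (Qbar ≃ₐ[ℚ] Qbar) :=
  (AlgEquiv.restrictNormalHom Qbar).comp toGal

theorem res_apply (τ : RingAut ℂ) (x : Qbar) : ((res τ x : Qbar) : ℂ) = τ x :=
  AlgEquiv.restrictNormalHom_apply Qbar (toGal τ) x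

theorem res_surjective : Function.Surjective res := by
  intro g
  obtain ⟨s, hs⟩ := exists_isTranscendenceBasis Qbar ℂ
  obtain ⟨σ, hσ⟩ := exists_aut (g : Qbar ≃+* Qbar) hs
  refine ⟨σ, ?_⟩
  ext x
  rw [res_apply]
  exact hσ x

/-- The subfield of `K` fixed by a group of automorphisms containing `fixG K`. -/
theorem exists_subfield (K : Subfield ℂ) [FiniteDimensional ℚ K] (H : Subgroup (RingAut ℂ))
    (hH : fixG K ≤ H) :
    ∃ F : Subfield ℂ, F ≤ K ∧ Module.finrank ℚ F = H.index ∧ H ≤ fixG F := by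
  have halg : ∀ x : ℂ, x ∈ K → x ∈ Qbar := by
    intro x hx
    rw [mem_algebraicClosure_iff]
    exact (Algebra.IsAlgebraic.isAlgebraic (R := ℚ) (⟨x, hx⟩ : K)).algHom
      (K.subtype.toRatAlgHom)
  -- `K` as a subfield of the algebraic numbers
  let K₀ : IntermediateField ℚ Qbar :=
    (K.comap Qbar.val.toRingHom).toIntermediateField fun q => by
      change (algebraMap ℚ ℂ q) ∈ K
      rw [eq_ratCast]
      exact SubfieldClass.ratCast_mem K q
  have hK₀ : ∀ x : Qbar, x ∈ K₀ ↔ (x : ℂ) ∈ K := fun x => Iff.rfl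
  have hfinK : FiniteDimensional ℚ K₀ := by
    let f : K₀ →ₐ[ℚ] K :=
      { toFun := fun x => ⟨((x : Qbar) : ℂ), x.2⟩
        map_one' := rfl
        map_mul' := fun _ _ => rfl
        map_zero' := rfl
        map_add' := fun _ _ => rfl
        commutes' := fun q => by
          apply Subtype.ext
          change (algebraMap ℚ ℂ q) = ((algebraMap ℚ K q : K) : ℂ)
          rw [eq_ratCast, eq_ratCast]
          rfl }
    exact FiniteDimensional.of_injective f.toLinearMap f.injective
  have hker : res.ker ≤ H := by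
    refine le_trans (fun τ hτ => ?_) hH
    rw [mem_fixG]
    intro x hx
    have h1 := res_apply τ ⟨x, halg x hx⟩
    rw [MonoidHom.mem_ker.1 hτ] at h1
    exact h1.symm
  let H' : Subgroup (Qbar ≃ₐ[ℚ] Qbar) := H.map res
  have hidx : H'.index = H.index := by
    rw [Subgroup.index_map, sup_eq_left.2 hker, MonoidHom.range_eq_top.2 res_surjective,
      Subgroup.index_top, mul_one]
  have hle : K₀.fixingSubgroup ≤ H' := by
    intro g hg
    obtain ⟨τ, rfl⟩ := res_surjective g
    refine ⟨τ, hH (mem_fixG.2 fun x hx => ?_), rfl⟩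
    have h1 : res τ ⟨x, halg x hx⟩ = ⟨x, halg x hx⟩ :=
      (IntermediateField.mem_fixingSubgroup_iff _ _).1 hg _ hx
    have h2 := res_apply τ ⟨x, halg x hx⟩
    rw [h1] at h2
    exact h2.symm
  have hopen : IsOpen (H' : Set (Qbar ≃ₐ[ℚ] Qbar)) :=
    Subgroup.isOpen_mono hle (IntermediateField.fixingSubgroup_isOpen K₀)
  let H'' : ClosedSubgroup (Qbar ≃ₐ[ℚ] Qbar) := ⟨H', Subgroup.isClosed_of_isOpen H' hopen⟩
  let F₀ : IntermediateField ℚ Qbar := IntermediateField.fixedField H'
  have hfix : F₀.fixingSubgroup = H' := InfiniteGalois.fixingSubgroup_fixedField H''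
  have hF₀ : F₀ ≤ K₀ := by
    have h1 := IntermediateField.fixedField_antitone hle
    rwa [InfiniteGalois.fixedField_fixingSubgroup] at h1
  refine ⟨(F₀.map Qbar.val).toSubfield, ?_, ?_, ?_⟩
  · rintro _ ⟨x, hx, rfl⟩
    exact hF₀ hx
  · have h1 : Module.finrank ℚ (F₀.map Qbar.val) = Module.finrank ℚ F₀ :=
      (F₀.equivMap Qbar.val).symm.toLinearEquiv.finrank_eq
    rw [← hidx, ← hfix, ← IntermediateField.finrank_eq_fixingSubgroup_index, ← h1]
    rfl
  · intro τ hτ
    rw [mem_fixG]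
    rintro _ ⟨x, hx, rfl⟩
    have h1 : res τ x = x :=
      (IntermediateField.mem_fixedField_iff _ _).1 hx (res τ) ⟨τ, hτ, rfl⟩
    have h2 := res_apply τ x
    rw [h1] at h2
    exact h2.symm

end Pool.Agent.FQC
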